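import Pool.Agent.V11111.BG.Main

open MeasureTheory Set Filter Topology

namespace Pool.Agent.Results.MP_842b9f_an.NotAlmostVariational

open Pool.Agent.V11111.BG

/-- The non-integer `β = 1 + √3` is not an almost variational frequency base. In fact, for almost
every `x` of `[0, 1)`, whenever the digit `1` has a frequency in some `β`-expansion of `x`, this
frequency is at least `1 / 3`. -/
theorem result :
    (1 < 1 + √3 ∧ ∀ n : ℕ, 1 + √3 ≠ n) ∧ ¬ AlmostVariational (1 + √3) ∧
      ∀ᵐ x ∂(volume.restrict (Ico (0 : ℝ) 1)), ∀ (ε : ℕ → ℕ) (l : ℝ),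
        IsExp (1 + √3) x ε → HasFreq ε 1 l → 1 / 3 ≤ l := by
  refine ⟨not_nat, not_av, ?_⟩
  filter_upwards [third] with x hx ε l h1 h2
  refine hx ε l ⟨fun i => ?_, h1.2⟩ h2
  have h3 := h1.1 i
  rw [ceil_b] at h3
  omega

end Pool.Agent.Results.MP_842b9f_an.NotAlmostVariational
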